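import Pool.Agent.Helper34.LD4.BadS
import Pool.Agent.Helper77.LD4.BadT
import Pool.Agent.Helper64.LD4.BadRat
import Pool.Agent.Helper41.LD4.Defs

/-!
# Project LD4, block TM1: the number of the bad exponents in a window, all cases
-/

set_option autoImplicit false

namespace Pool.Agent.Helper34.LD4

open Set Filter Topology
open Pool.Agent.Helper41.LD (Dioph)
open Pool.Agent.Helper41.LD4 (RatPow)

open Classical in
/-- TM1: the number of the bad exponents in a window -/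
theorem bad_count4 {t s : ℝ} {κ : ℕ} (hκ : 1 ≤ κ) (ht : 1 < t) (hs : 1 < s) (ht2 : Dioph t κ ∨ RatPow t) (hs2 : Dioph s κ ∨ RatPow s)
    (hirr : Irrational (Real.log t / Real.log s)) :
    ∃ c' : ℕ, 1 ≤ c' ∧ ∀ C V : ℕ, 1 ≤ C → 1 ≤ V → ∃ D : ℝ, 0 < D ∧ ∀ᶠ K : ℕ in atTop, ∀ X : ℕ, Real.exp (D * (K : ℝ) ^ (2 * κ)) ≤ X → ∀ u₀ : ℕ,
      (((Finset.Ico u₀ (u₀ + C * K)).filter fun u => Pool.Agent.Helper23.LD3.Bad t s K X u).card : ℝ) ≤ max (c' * (K : ℝ) + 1) ((C : ℝ) * K / V + 1) := by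
  rcases hs2 with hs3 | hs3
  · refine ⟨50, by norm_num, fun C V hC hV => ?_⟩
    have h := bad_count_right hκ ht hs hs3 hirr hC hV
    exact_mod_cast h
  · rcases ht2 with ht3 | ht3
    · refine ⟨50, by norm_num, fun C V hC hV => ?_⟩
      have h := Pool.Agent.Helper77.LD4.bad_count_left hκ ht hs ht3 hirr hC hV
      exact_mod_cast h
    · exact Pool.Agent.Helper64.LD4.bad_count_rat hκ ht hs ht3 hs3 hirr

end Pool.Agent.Helper34.LD4
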