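import Pool.Agent.Helper23.LD3.TA
import Pool.Agent.Helper94.LD3.TB

/-!
# Project LD4, block TM1: the number of the bad exponents in a window when `s` is Diophantine
-/

set_option autoImplicit false

namespace Pool.Agent.Helper34.LD4

open Set Filter Topology
open Pool.Agent.Helper41.LD (Dioph)
open Pool.Agent.Helper23.LD3 (Close Bad)
open Pool.Agent.Helper94.LD3 (dioph_log height)

/-- a bad exponent, in terms of logarithms -/
private def Rel34 (x y δ : ℝ) (H u : ℕ) : Prop :=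
  ∃ v a b : ℕ, 1 ≤ a ∧ a ≤ H ∧ 1 ≤ b ∧ b ≤ H ∧
    |(v : ℝ) * x - u * y - (Real.log a - Real.log b)| ≤ δ

/-- the difference of two bad exponents -/
private def R234 (x y δ : ℝ) (M d : ℕ) (e : ℤ) (A B : ℕ) : Prop :=
  1 ≤ A ∧ A ≤ M ∧ 1 ≤ B ∧ B ≤ M ∧ |(e : ℝ) * x - d * y - (Real.log A - Real.log B)| ≤ δ

private theorem abs_log34 {η : ℝ} (h : |η| ≤ 1 / 2) : |Real.log (1 + η)| ≤ 2 * |η| := by
  have h1 := abs_le.1 h
  have hpos : 0 < 1 + η := by linarith [h1.1]
  rw [abs_le]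
  constructor
  · have h2 := Real.one_sub_inv_le_log_of_pos hpos
    have h3 : -(2 * |η|) ≤ 1 - (1 + η)⁻¹ := by
      have h4 : 1 - (1 + η)⁻¹ = η / (1 + η) := by field_simp; ring
      rw [h4, le_div_iff₀ hpos]
      rcases le_or_gt 0 η with h5 | h5
      · rw [abs_of_nonneg h5]; nlinarith
      · rw [abs_of_neg h5]; rw [abs_of_neg h5] at h; nlinarith
    linarith
  · have h2 := Real.log_le_sub_one_of_pos hpos
    have h3 := le_abs_self η
    have h4 := abs_nonneg η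
    linarith

private theorem rel_of_bad34 {t s : ℝ} (ht : 1 < t) (hs : 1 < s) {K X u : ℕ} (hX : 1 ≤ X)
    (h : Bad t s K X u) :
    Rel34 (Real.log s) (Real.log t) (2 / X) (2 ^ (24 * K + 4)) u := by
  obtain ⟨v, h1, h2, q, hq1, hq2, p, hp⟩ := h
  have hsv : 0 < s ^ v := by positivity
  have htu : 0 < t ^ u := by positivity
  set r : ℝ := s ^ v / t ^ u with hr
  have hr0 : 0 < r := by positivity
  have hri : t ^ u / s ^ v = r⁻¹ := by rw [hr, inv_div]
  rw [hri] at hp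
  have hr2 : r⁻¹ < 2 ^ (12 * K) := by
    rw [inv_lt_comm₀ hr0 (by positivity)]
    calc ((2 : ℝ) ^ (12 * K))⁻¹ = (1 / 2) ^ (12 * K) := by rw [one_div, inv_pow]
      _ < r := h1
  set α : ℝ := max r r⁻¹ with hα
  have hα1 : 1 ≤ α := by
    rcases le_or_gt 1 r with h3 | h3
    · exact le_trans h3 (le_max_left _ _)
    · exact le_trans (one_le_inv_iff₀.2 ⟨hr0, h3.le⟩) (le_max_right _ _)
  have hα2 : α < 2 ^ (12 * K) := max_lt h2 hr2
  have hα0 : 0 < α := by linarith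
  have hXr : (1 : ℝ) ≤ X := by exact_mod_cast hX
  have hX2 : 1 / ((X : ℝ) + 1) ≤ 1 / 2 := by
    apply one_div_le_one_div_of_le <;> linarith
  have hq1r : (1 : ℝ) ≤ q := by exact_mod_cast hq1
  have hq2r : (q : ℝ) ≤ 2 ^ (12 * K + 3) := by exact_mod_cast hq2
  have hqα : 1 ≤ q * α := by nlinarith
  have hp' := abs_le.1 (le_trans hp hX2)
  have hp1 : 1 ≤ p := by
    have : (0 : ℝ) < p := by linarith [hp'.2]
    exact_mod_cast this
  have hp1r : (1 : ℝ) ≤ p := by exact_mod_cast hp1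
  have hp2 : (p : ℝ) ≤ 2 ^ (24 * K + 4) := by
    have h4 : q * α ≤ 2 ^ (12 * K + 3) * 2 ^ (12 * K) := by
      apply mul_le_mul hq2r hα2.le hα0.le (by positivity)
    have h5 : (2 : ℝ) ^ (12 * K + 3) * 2 ^ (12 * K) = 2 ^ (24 * K + 3) := by
      rw [← pow_add]; ring_nf
    have h6 : (2 : ℝ) ^ (24 * K + 4) = 2 * 2 ^ (24 * K + 3) := by ring
    have h7 : (1 : ℝ) ≤ 2 ^ (24 * K + 3) := one_le_pow₀ (by norm_num)
    rw [h5] at h4
    rw [h6]
    linarith [hp'.1]
  obtain ⟨P, rfl⟩ := Int.eq_ofNat_of_zero_le (by omega : 0 ≤ p)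
  have hP1 : 1 ≤ P := by exact_mod_cast hp1
  have hP1r : (1 : ℝ) ≤ P := by exact_mod_cast hP1
  have hP2 : P ≤ 2 ^ (24 * K + 4) := by
    have : ((P : ℤ) : ℝ) = (P : ℝ) := by push_cast; rfl
    rw [this] at hp2
    exact_mod_cast hp2
  have hcast : (((P : ℕ) : ℤ) : ℝ) = (P : ℝ) := by push_cast; rfl
  rw [hcast] at hp
  -- the logarithm
  have key : |Real.log α - (Real.log P - Real.log q)| ≤ 2 / X := by
    set η : ℝ := (q * α - P) / P with hη
    have hP0 : (0 : ℝ) < P := by linarith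
    have hq0 : (0 : ℝ) < q := by linarith
    have h3 : |η| ≤ 1 / ((X : ℝ) + 1) := by
      rw [hη, abs_div, abs_of_pos hP0, div_le_iff₀ hP0]
      have h4 : (0 : ℝ) < 1 / ((X : ℝ) + 1) := by positivity
      nlinarith
    have h4 : Real.log (1 + η) = Real.log α - (Real.log P - Real.log q) := by
      have : 1 + η = q * α / P := by rw [hη]; field_simp; ring
      rw [this, Real.log_div (by positivity) (by positivity),
        Real.log_mul (by positivity) (by positivity)]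
      ring
    rw [← h4]
    have h5 := abs_log34 (h3.trans hX2)
    have h6 : 1 / ((X : ℝ) + 1) ≤ 1 / X := one_div_le_one_div_of_le (by linarith) (by linarith)
    have h7 : (2 : ℝ) / X = 2 * (1 / X) := by ring
    rw [h7]
    linarith
  have hqH : q ≤ 2 ^ (24 * K + 4) :=
    hq2.trans (Nat.pow_le_pow_right (by norm_num) (by omega))
  have hlogr : Real.log r = v * Real.log s - u * Real.log t := by
    rw [hr, Real.log_div (by positivity) (by positivity), Real.log_pow, Real.log_pow]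
  rcases le_total r⁻¹ r with h3 | h3
  · have hαr : α = r := max_eq_left h3
    rw [hαr, hlogr] at key
    exact ⟨v, P, q, hP1, hP2, hq1, hqH, key⟩
  · have hαr : α = r⁻¹ := max_eq_right h3
    rw [hαr, Real.log_inv, hlogr] at key
    refine ⟨v, q, P, hq1, hqH, hP1, hP2, ?_⟩
    rw [← abs_neg] at key
    convert key using 2
    ring

private theorem diff34 {x y δ : ℝ} {H u₁ u₂ : ℕ} (hu : u₁ ≤ u₂) (h1 : Rel34 x y δ H u₁)
    (h2 : Rel34 x y δ H u₂) : ∃ (e : ℤ) (A B : ℕ), R234 x y (2 * δ) (H * H) (u₂ - u₁) e A B := by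
  obtain ⟨v₁, a₁, b₁, ha1, ha1', hb1, hb1', h1⟩ := h1
  obtain ⟨v₂, a₂, b₂, ha2, ha2', hb2, hb2', h2⟩ := h2
  refine ⟨(v₂ : ℤ) - v₁, a₂ * b₁, b₂ * a₁, Nat.mul_pos ha2 hb1, Nat.mul_le_mul ha2' hb1',
    Nat.mul_pos hb2 ha1, Nat.mul_le_mul hb2' ha1', ?_⟩
  have e1 : (0 : ℝ) < a₁ := by exact_mod_cast ha1
  have e2 : (0 : ℝ) < a₂ := by exact_mod_cast ha2
  have e3 : (0 : ℝ) < b₁ := by exact_mod_cast hb1
  have e4 : (0 : ℝ) < b₂ := by exact_mod_cast hb2
  push_cast [Nat.cast_sub hu]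
  rw [Real.log_mul e2.ne' e3.ne', Real.log_mul e4.ne' e1.ne']
  have h1' := abs_le.1 h1
  have h2' := abs_le.1 h2
  rw [abs_le]
  constructor
  · linarith [h1'.1, h1'.2, h2'.1, h2'.2]
  · linarith [h1'.1, h1'.2, h2'.1, h2'.2]

/-- two relations of the window are proportional -/
private theorem two34 {x y δ C₁ T : ℝ} {κ M N d₁ d₂ A₁ B₁ A₂ B₂ : ℕ} {e₁ e₂ : ℤ} (hx : 0 < x) (hy : 0 < y)
    (hC₁ : 0 < C₁)
    (hD : ∀ n A B : ℕ, 1 ≤ n → 1 ≤ A → 1 ≤ B →
      Real.exp (-(C₁ * ((n : ℝ) + Real.log A + Real.log B) ^ κ)) ≤ |(n : ℝ) * x - (Real.log A - Real.log B)|)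
    (hδ : δ ≤ 1) (hd1 : d₁ ≤ N) (hd2 : d₂ ≤ N)
    (h1 : R234 x y δ M d₁ e₁ A₁ B₁) (h2 : R234 x y δ M d₂ e₂ A₂ B₂)
    (hT : 2 * N * ((N * y + Real.log M + 1) / x) + 4 * N * Real.log M ≤ T)
    (hS1 : 2 * N * δ < Real.exp (-(C₁ * T ^ κ))) (hS2 : 2 * N * δ < Real.exp (-(2 * N * Real.log M))) :
    A₁ ^ d₂ * B₂ ^ d₁ = B₁ ^ d₂ * A₂ ^ d₁ := by
  obtain ⟨hA1, hA1M, hB1, hB1M, h1⟩ := h1
  obtain ⟨hA2, hA2M, hB2, hB2M, h2⟩ := h2
  have hM1 : 1 ≤ M := hA1.trans hA1M
  have a1 : (0 : ℝ) < A₁ := by exact_mod_cast hA1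
  have a2 : (0 : ℝ) < A₂ := by exact_mod_cast hA2
  have b1 : (0 : ℝ) < B₁ := by exact_mod_cast hB1
  have b2 : (0 : ℝ) < B₂ := by exact_mod_cast hB2
  have lM : 0 ≤ Real.log M := Real.log_natCast_nonneg M
  have hlog : ∀ n : ℕ, 1 ≤ n → n ≤ M → 0 ≤ Real.log n ∧ Real.log n ≤ Real.log M := fun n hn hnM =>
    ⟨Real.log_natCast_nonneg n, Real.log_le_log (by exact_mod_cast hn) (by exact_mod_cast hnM)⟩
  have la1 := hlog _ hA1 hA1M
  have la2 := hlog _ hA2 hA2M
  have lb1 := hlog _ hB1 hB1M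
  have lb2 := hlog _ hB2 hB2M
  have hd1r : (d₁ : ℝ) ≤ N := by exact_mod_cast hd1
  have hd2r : (d₂ : ℝ) ≤ N := by exact_mod_cast hd2
  have d10 : (0 : ℝ) ≤ d₁ := Nat.cast_nonneg _
  have d20 : (0 : ℝ) ≤ d₂ := Nat.cast_nonneg _
  have N0 : (0 : ℝ) ≤ N := Nat.cast_nonneg _
  set P : ℕ := A₁ ^ d₂ * B₂ ^ d₁ with hP
  set Q : ℕ := B₁ ^ d₂ * A₂ ^ d₁ with hQ
  have hP1 : 1 ≤ P := Nat.mul_pos (pow_pos hA1 _) (pow_pos hB2 _)
  have hQ1 : 1 ≤ Q := Nat.mul_pos (pow_pos hB1 _) (pow_pos hA2 _)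
  have lP : Real.log P = d₂ * Real.log A₁ + d₁ * Real.log B₂ := by
    rw [hP]; push_cast
    rw [Real.log_mul (by positivity) (by positivity), Real.log_pow, Real.log_pow]
  have lQ : Real.log Q = d₂ * Real.log B₁ + d₁ * Real.log A₂ := by
    rw [hQ]; push_cast
    rw [Real.log_mul (by positivity) (by positivity), Real.log_pow, Real.log_pow]
  have lP2 : Real.log P ≤ 2 * N * Real.log M := by
    rw [lP]
    have := mul_le_mul hd2r la1.2 la1.1 N0
    have := mul_le_mul hd1r lb2.2 lb2.1 N0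
    linarith
  have lQ2 : Real.log Q ≤ 2 * N * Real.log M := by
    rw [lQ]
    have := mul_le_mul hd2r lb1.2 lb1.1 N0
    have := mul_le_mul hd1r la2.2 la2.1 N0
    linarith
  have lP0 : 0 ≤ Real.log P := Real.log_natCast_nonneg P
  have lQ0 : 0 ≤ Real.log Q := Real.log_natCast_nonneg Q
  have δ0 : 0 ≤ δ := (abs_nonneg _).trans h1
  set m : ℤ := e₁ * d₂ - e₂ * d₁ with hm
  have main : |(m : ℝ) * x - (Real.log P - Real.log Q)| ≤ 2 * N * δ := by
    have e0 : (m : ℝ) * x - (Real.log P - Real.log Q) =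
        d₂ * ((e₁ : ℝ) * x - d₁ * y - (Real.log A₁ - Real.log B₁)) -
        d₁ * ((e₂ : ℝ) * x - d₂ * y - (Real.log A₂ - Real.log B₂)) := by
      rw [lP, lQ, hm]; push_cast; ring
    rw [e0]
    refine (abs_sub _ _).trans ?_
    rw [abs_mul, abs_mul, abs_of_nonneg d10, abs_of_nonneg d20]
    have := mul_le_mul hd2r h1 (abs_nonneg _) N0
    have := mul_le_mul hd1r h2 (abs_nonneg _) N0
    linarith
  have he : ∀ (d : ℕ) (e : ℤ) (A B : ℕ), d ≤ N → 1 ≤ A → A ≤ M → 1 ≤ B → B ≤ M →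
      |(e : ℝ) * x - d * y - (Real.log A - Real.log B)| ≤ δ →
      |(e : ℝ)| ≤ (N * y + Real.log M + 1) / x := by
    intro d e A B hd hA hAM hB hBM h
    rw [le_div_iff₀ hx]
    have l1 := hlog _ hA hAM
    have l2 := hlog _ hB hBM
    have h' := abs_le.1 h
    have dr : (d : ℝ) ≤ N := by exact_mod_cast hd
    have d0 : (0 : ℝ) ≤ d := Nat.cast_nonneg _
    have hdy : (d : ℝ) * y ≤ N * y := mul_le_mul_of_nonneg_right dr hy.le
    have hdy0 : 0 ≤ (d : ℝ) * y := by positivity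
    have habs : |(e : ℝ)| * x = |(e : ℝ) * x| := by rw [abs_mul, abs_of_pos hx]
    rw [habs, abs_le]
    constructor
    · linarith [h'.1]
    · linarith [h'.2]
  have he1 := he _ _ _ _ hd1 hA1 hA1M hB1 hB1M h1
  have he2 := he _ _ _ _ hd2 hA2 hA2M hB2 hB2M h2
  set E : ℝ := (N * y + Real.log M + 1) / x with hE
  have E0 : 0 ≤ E := (abs_nonneg _).trans he1
  have hmabs : |(m : ℝ)| ≤ 2 * N * E := by
    rw [hm]; push_cast
    refine (abs_sub _ _).trans ?_
    rw [abs_mul, abs_mul, abs_of_nonneg d10, abs_of_nonneg d20]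
    have := mul_le_mul he1 hd2r d20 E0
    have := mul_le_mul he2 hd1r d10 E0
    linarith
  have hm0 : m = 0 := by
    by_contra hne
    have hn1 : 1 ≤ m.natAbs := Int.natAbs_pos.2 hne
    have hcast : ((m.natAbs : ℕ) : ℝ) = |(m : ℝ)| := by
      rw [Nat.cast_natAbs, Int.cast_abs]
    have low : Real.exp (-(C₁ * ((m.natAbs : ℝ) + Real.log P + Real.log Q) ^ κ)) ≤ 2 * N * δ := by
      rcases lt_or_gt_of_ne hne with h3 | h3
      · have h4 := hD m.natAbs Q P hn1 hQ1 hP1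
        have h5 : ((m.natAbs : ℕ) : ℝ) = -(m : ℝ) := by
          rw [hcast, abs_of_neg (by exact_mod_cast h3)]
        have h6 : |((m.natAbs : ℕ) : ℝ) * x - (Real.log Q - Real.log P)| ≤ 2 * N * δ := by
          rw [← abs_neg, h5]
          convert main using 2
          ring
        have h7 : ((m.natAbs : ℝ) + Real.log Q + Real.log P) =
            ((m.natAbs : ℝ) + Real.log P + Real.log Q) := by ring
        rw [h7] at h4
        exact h4.trans h6
      · have h4 := hD m.natAbs P Q hn1 hP1 hQ1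
        have h5 : ((m.natAbs : ℕ) : ℝ) = (m : ℝ) := by
          rw [hcast, abs_of_pos (by exact_mod_cast h3)]
        refine h4.trans ?_
        rw [h5]
        exact main
    have h8 : (m.natAbs : ℝ) + Real.log P + Real.log Q ≤ T := by
      rw [hcast]; linarith
    have h9 : Real.exp (-(C₁ * T ^ κ)) ≤
        Real.exp (-(C₁ * ((m.natAbs : ℝ) + Real.log P + Real.log Q) ^ κ)) := by
      apply Real.exp_le_exp.2
      apply neg_le_neg
      apply mul_le_mul_of_nonneg_left _ hC₁.le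
      apply pow_le_pow_left₀ (by positivity) h8
    linarith
  rw [hm0] at main
  by_contra hne
  have step : ∀ P Q : ℕ, 1 ≤ P → P < Q → Real.log Q ≤ 2 * N * Real.log M →
      |Real.log P - Real.log Q| ≤ 2 * N * δ → False := by
    intro P Q hP1 hPQ hQ2 h
    have hP0 : (0 : ℝ) < P := by exact_mod_cast hP1
    have hQ0' : 0 < Q := by omega
    have hQ0 : (0 : ℝ) < Q := by exact_mod_cast hQ0'
    have h3 := Real.one_sub_inv_le_log_of_pos (div_pos hQ0 hP0)
    rw [Real.log_div hQ0.ne' hP0.ne', inv_div] at h3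
    have h4 : 1 / (Q : ℝ) ≤ 1 - P / Q := by
      rw [div_le_iff₀ hQ0, sub_mul, div_mul_cancel₀ _ hQ0.ne', one_mul]
      have : (P : ℝ) + 1 ≤ Q := by exact_mod_cast hPQ
      linarith
    have h5 : Real.exp (-(2 * N * Real.log M)) ≤ 1 / Q := by
      rw [Real.exp_neg, one_div]
      apply inv_anti₀ hQ0
      calc (Q : ℝ) = Real.exp (Real.log Q) := (Real.exp_log hQ0).symm
        _ ≤ _ := Real.exp_le_exp.2 hQ2
    have h6 := (abs_le.1 h).1
    linarith
  rcases lt_or_gt_of_ne hne with h3 | h3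
  · apply step P Q hP1 h3 lQ2
    rw [← abs_neg]
    convert main using 2
    push_cast; ring
  · apply step Q P hQ1 h3 lP2
    convert main using 2
    push_cast; ring

/-- elements with pairwise gaps at least `g` -/
private theorem gaps34 {S : Finset ℕ} {a b g : ℕ} (hg : 1 ≤ g) (ha : ∀ u ∈ S, a ≤ u)
    (hb : ∀ u ∈ S, u ≤ b) (hgap : ∀ u ∈ S, ∀ v ∈ S, u < v → g ≤ v - u) : (S.card - 1) * g ≤ b - a := by
  have h1 : S.card ≤ (Finset.range ((b - a) / g + 1)).card := by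
    apply Finset.card_le_card_of_injOn (fun u => (u - a) / g)
    · intro u hu
      have := ha u hu
      have := hb u hu
      simp only [Finset.coe_range, Set.mem_Iio]
      exact Nat.lt_succ_of_le (Nat.div_le_div_right (by omega))
    · intro u hu v hv huv
      have key : ∀ u ∈ S, ∀ v ∈ S, u < v → (u - a) / g ≠ (v - a) / g := by
        intro u hu v hv h3
        have h4 := hgap u hu v hv h3
        have h5 := ha u hu
        have h6 : (u - a) / g + 1 ≤ (v - a) / g := by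
          rw [← Nat.add_div_right _ (by omega)]
          exact Nat.div_le_div_right (by omega)
        omega
      rcases lt_trichotomy u v with h3 | h3 | h3
      · exact absurd huv (key u hu v hv h3)
      · exact h3
      · exact absurd huv.symm (key v hv u hu h3)
  rw [Finset.card_range] at h1
  have h2 : (b - a) / g * g ≤ b - a := Nat.div_mul_le_self _ _
  have h3 : S.card - 1 ≤ (b - a) / g := Nat.sub_le_iff_le_add.2 h1
  calc (S.card - 1) * g ≤ (b - a) / g * g := Nat.mul_le_mul_right _ h3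
    _ ≤ b - a := h2

/-- irrationality: small multiples stay away from the integers -/
private theorem sep34 {x y : ℝ} (hx : 0 < x) (hirr : Irrational (y / x)) (V : ℕ) :
    ∃ η : ℝ, 0 < η ∧ ∀ d : ℕ, 1 ≤ d → d < V → ∀ e : ℤ, η ≤ |(e : ℝ) * x - d * y| := by
  induction V with
  | zero => exact ⟨1, one_pos, fun d _ h => absurd h (Nat.not_lt_zero d)⟩
  | succ V ih =>
    obtain ⟨η, hη, h⟩ := ih
    rcases Nat.eq_zero_or_pos V with hV | hV
    · subst hV
      exact ⟨1, one_pos, fun d h1 h2 => by omega⟩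
    · set α : ℝ := (V : ℝ) * (y / x) with hα
      have hαi : Irrational α := by
        have := hirr.natCast_mul (m := V) (by omega)
        exact this
      have h0 : 0 < |α - round α| := by
        apply abs_pos.2
        intro h3
        exact hαi ⟨(round α : ℚ), by push_cast; linarith⟩
      refine ⟨min η (x * |α - round α|), lt_min hη (mul_pos hx h0), ?_⟩
      intro d h1 h2 e
      rcases Nat.lt_succ_iff_lt_or_eq.1 h2 with h3 | h3
      · exact (min_le_left _ _).trans (h d h1 h3 e)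
      · refine (min_le_right _ _).trans ?_
        rw [h3]
        have h4 : |(e : ℝ) * x - V * y| = x * |α - e| := by
          rw [← abs_of_pos hx, ← abs_mul, abs_of_pos hx, ← abs_neg, hα]
          congr 1
          field_simp
          ring
        rw [h4]
        exact mul_le_mul_of_nonneg_left (round_le α e) hx.le

private theorem log_two34 (K : ℕ) (hK : 1 ≤ K) :
    Real.log ((2 ^ (24 * K + 4) * 2 ^ (24 * K + 4) : ℕ) : ℝ) ≤ 40 * K := by
  push_cast
  rw [← pow_add, Real.log_pow]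
  push_cast
  have h1 := Real.log_two_lt_d9
  have hK1 : (1 : ℝ) ≤ K := by exact_mod_cast hK
  nlinarith

open Classical in
/-- BAD, only `s` is Diophantine -/
theorem bad_count_right {t s : ℝ} {κ : ℕ} (hκ : 1 ≤ κ) (ht : 1 < t) (hs : 1 < s) (hds : Dioph s κ)
    (hirr : Irrational (Real.log t / Real.log s)) {C V : ℕ} (hC : 1 ≤ C) (hV : 1 ≤ V) :
    ∃ D : ℝ, 0 < D ∧ ∀ᶠ K : ℕ in atTop, ∀ X : ℕ, Real.exp (D * (K : ℝ) ^ (2 * κ)) ≤ X → ∀ u₀ : ℕ,
      (((Finset.Ico u₀ (u₀ + C * K)).filter fun u => Bad t s K X u).card : ℝ) ≤ max (50 * (K : ℝ) + 1) ((C : ℝ) * K / V + 1) := by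
  have hx : 0 < Real.log s := Real.log_pos hs
  have hy : 0 < Real.log t := Real.log_pos ht
  set x := Real.log s with hxd
  set y := Real.log t with hyd
  obtain ⟨C₁, hC₁, hD⟩ := dioph_log hs hκ hds
  obtain ⟨η, hη, hsep⟩ := sep34 hx hirr V
  have hCr : (1 : ℝ) ≤ C := by exact_mod_cast hC
  set E₁ : ℝ := (C * y + 41) / x with hE₁
  have hE₁0 : 0 < E₁ := by positivity
  set C₃ : ℝ := 2 * C * E₁ + 160 * C with hC₃
  have hC₃0 : 0 < C₃ := by positivity
  refine ⟨C₁ * C₃ ^ κ + 80 * C + 1, by positivity, ?_⟩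
  have ev1 : ∀ᶠ K : ℕ in atTop, 8 * (C : ℝ) * K < Real.exp K := by
    have h1 : Tendsto (fun z : ℝ => Real.exp z / z ^ 1) atTop atTop := Real.tendsto_exp_div_pow_atTop 1
    have h2 := (h1.comp tendsto_natCast_atTop_atTop).eventually_gt_atTop (8 * (C : ℝ))
    filter_upwards [h2, eventually_ge_atTop 1] with K h3 h4
    have hK0 : (0 : ℝ) < K := by exact_mod_cast h4
    simp only [Function.comp, pow_one] at h3
    rw [lt_div_iff₀ hK0] at h3
    exact h3
  have ev2 : ∀ᶠ K : ℕ in atTop, 4 / η < Real.exp K := by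
    exact (Real.tendsto_exp_atTop.comp tendsto_natCast_atTop_atTop).eventually_gt_atTop _
  filter_upwards [ev1, ev2, eventually_ge_atTop 4] with K h1 h2 hK X hX u₀
  have hK1 : (1 : ℝ) ≤ K := by exact_mod_cast (by omega : 1 ≤ K)
  have hK4 : (4 : ℝ) ≤ K := by exact_mod_cast hK
  set Z : ℝ := (K : ℝ) ^ (2 * κ) with hZ
  have hZ2 : (K : ℝ) ^ 2 ≤ Z := pow_le_pow_right₀ hK1 (by omega)
  have hZK : (K : ℝ) ≤ Z := by nlinarith
  have hexpK : Real.exp K ≤ Real.exp Z := Real.exp_le_exp.2 hZK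
  have hXexp : Real.exp K ≤ X := by
    refine le_trans (hexpK.trans (Real.exp_le_exp.2 ?_)) hX
    have : 0 < C₁ * C₃ ^ κ := by positivity
    nlinarith
  have hX0 : (0 : ℝ) < X := lt_of_lt_of_le (Real.exp_pos _) hXexp
  have hX1 : 1 ≤ X := by exact_mod_cast hX0
  have hX4 : (4 : ℝ) ≤ X := by
    have := Real.add_one_le_exp (K : ℝ)
    linarith
  set S := (Finset.Ico u₀ (u₀ + C * K)).filter fun u => Bad t s K X u with hS
  rcases Nat.lt_or_ge S.card 2 with hcard | hcard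
  · have : (S.card : ℝ) ≤ 1 := by exact_mod_cast (by omega : S.card ≤ 1)
    exact le_trans (by linarith) (le_max_left _ _)
  have hne : S.Nonempty := Finset.card_pos.1 (by omega)
  -- the extreme elements
  set a := S.min' hne with had
  set b := S.max' hne with hbd
  have haS : a ∈ S := Finset.min'_mem _ _
  have hbS : b ∈ S := Finset.max'_mem _ _
  have hle : ∀ u ∈ S, a ≤ u := fun u hu => Finset.min'_le _ _ hu
  have hge : ∀ u ∈ S, u ≤ b := fun u hu => Finset.le_max' _ _ hu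
  have hab : a ≤ b := hle b hbS
  have hbN : b - a ≤ C * K := by
    have h3 := (Finset.mem_Ico.1 (Finset.mem_filter.1 haS).1)
    have h4 := (Finset.mem_Ico.1 (Finset.mem_filter.1 hbS).1)
    omega
  -- the smallest gap
  obtain ⟨p, hp, hpmin⟩ : ∃ p ∈ (S ×ˢ S).filter (fun p : ℕ × ℕ => p.1 < p.2),
      ∀ p' ∈ (S ×ˢ S).filter (fun p : ℕ × ℕ => p.1 < p.2), p.2 - p.1 ≤ p'.2 - p'.1 := by
    apply Finset.exists_min_image
    obtain ⟨u, hu, v, hv, huv⟩ := Finset.one_lt_card.1 (by omega : 1 < S.card)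
    rcases lt_or_gt_of_ne huv with h3 | h3
    · exact ⟨(u, v), by simp [hu, hv, h3]⟩
    · exact ⟨(v, u), by simp [hu, hv, h3]⟩
  obtain ⟨u₁, u₂⟩ := p
  simp only [Finset.mem_filter, Finset.mem_product] at hp
  obtain ⟨⟨hu1, hu2⟩, hu12⟩ := hp
  have hgap : ∀ u ∈ S, ∀ v ∈ S, u < v → u₂ - u₁ ≤ v - u := by
    intro u hu v hv huv
    exact hpmin (u, v) (by simp [hu, hv, huv])
  set g := u₂ - u₁ with hg
  have hg1 : 1 ≤ g := by omega
  have hgN : g ≤ C * K := by
    have h3 := hgap u₁ hu1 u₂ hu2 hu12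
    have h4 := hle u₁ hu1
    have h5 := hge u₂ hu2
    omega
  have hcnt := gaps34 hg1 hle hge hgap
  have hrel : ∀ u ∈ S, Rel34 x y (2 / X) (2 ^ (24 * K + 4)) u := fun u hu =>
    rel_of_bad34 ht hs hX1 (Finset.mem_filter.1 hu).2
  obtain ⟨e₁, A₁, B₁, hR1⟩ := diff34 hu12.le (hrel u₁ hu1) (hrel u₂ hu2)
  obtain ⟨e₂, A₂, B₂, hR2⟩ := diff34 hab (hrel a haS) (hrel b hbS)
  have hδ : (2 : ℝ) * (2 / X) = 4 / X := by ring
  rw [hδ] at hR1 hR2
  rw [← hg] at hR1
  have lM := log_two34 K (by omega)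
  set H : ℕ := 2 ^ (24 * K + 4) with hH
  have lM0 : 0 ≤ Real.log ((H * H : ℕ) : ℝ) := Real.log_natCast_nonneg _
  have hNc : ((C * K : ℕ) : ℝ) = C * K := by push_cast; ring
  have h8 : 2 * ((C * K : ℕ) : ℝ) * (4 / X) < Real.exp (-((C₁ * C₃ ^ κ + 80 * C) * Z)) := by
    have h3 : 2 * ((C * K : ℕ) : ℝ) * (4 / X) = 8 * C * K / X := by rw [hNc]; ring
    rw [h3, div_lt_iff₀ hX0]
    calc 8 * (C : ℝ) * K < Real.exp Z := lt_of_lt_of_le h1 hexpK
      _ = Real.exp (-((C₁ * C₃ ^ κ + 80 * C) * Z)) * Real.exp ((C₁ * C₃ ^ κ + 80 * C + 1) * Z) := by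
          rw [← Real.exp_add]; congr 1; ring
      _ ≤ _ := mul_le_mul_of_nonneg_left hX (Real.exp_pos _).le
  have heq := two34 (T := C₃ * (K : ℝ) ^ 2) hx hy hC₁ hD (by rw [div_le_one hX0]; exact hX4) hgN hbN hR1 hR2
    (by
      rw [hNc]
      have h3 : (C * K * y + Real.log ((H * H : ℕ) : ℝ) + 1) / x ≤ K * E₁ := by
        rw [hE₁, ← mul_div_assoc]
        apply div_le_div_of_nonneg_right _ hx.le
        nlinarith
      have h4 : 0 ≤ (C * K * y + Real.log ((H * H : ℕ) : ℝ) + 1) / x := by positivity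
      have h5 : (0 : ℝ) < C * K := by positivity
      have h6 := mul_le_mul_of_nonneg_left h3 (by positivity : (0 : ℝ) ≤ 2 * (C * K))
      have h7 := mul_le_mul_of_nonneg_left lM (by positivity : (0 : ℝ) ≤ 4 * (C * K))
      calc _ ≤ 2 * (C * K) * (K * E₁) + 4 * (C * K) * (40 * K) := add_le_add h6 h7
        _ = C₃ * (K : ℝ) ^ 2 := by rw [hC₃]; ring)
    (by
      refine lt_of_lt_of_le h8 (Real.exp_le_exp.2 (neg_le_neg ?_))
      have h3 : (C₃ * (K : ℝ) ^ 2) ^ κ = C₃ ^ κ * Z := by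
        rw [mul_pow, ← pow_mul]
      rw [h3]
      have : 0 ≤ 80 * (C : ℝ) * Z := by positivity
      nlinarith)
    (by
      refine lt_of_lt_of_le h8 (Real.exp_le_exp.2 (neg_le_neg ?_))
      rw [hNc]
      have h3 := mul_le_mul_of_nonneg_left lM (by positivity : (0 : ℝ) ≤ 2 * (C * K))
      have h4 : 2 * ((C : ℝ) * K) * (40 * K) = 80 * C * (K : ℝ) ^ 2 := by ring
      have h5 : 80 * (C : ℝ) * (K : ℝ) ^ 2 ≤ 80 * C * Z := mul_le_mul_of_nonneg_left hZ2 (by positivity)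
      have h6 : 0 ≤ C₁ * C₃ ^ κ * Z := by positivity
      linarith)
  by_cases hne1 : A₁ = B₁
  · -- the smallest gap is large
    have hVg : V ≤ g := by
      by_contra hlt
      have h3 := hsep g hg1 (by omega) e₁
      have h4 := hR1.2.2.2.2
      rw [hne1, sub_self, sub_zero] at h4
      have h5 : 4 / (X : ℝ) < η := by
        rw [div_lt_iff₀ hX0]
        have h6 := lt_of_lt_of_le h2 hXexp
        rw [div_lt_iff₀ hη] at h6
        linarith
      linarith
    refine le_trans ?_ (le_max_right _ _)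
    have h3 : (S.card - 1) * V ≤ C * K :=
      (Nat.mul_le_mul_left _ hVg).trans (hcnt.trans hbN)
    have hV0 : (0 : ℝ) < V := by exact_mod_cast hV
    have h4 : (((S.card - 1 : ℕ) : ℝ)) * V ≤ C * K := by exact_mod_cast h3
    have h5 : ((S.card - 1 : ℕ) : ℝ) = S.card - 1 := by
      rw [Nat.cast_sub (by omega)]; norm_num
    rw [h5] at h4
    have h6 : (S.card : ℝ) - 1 ≤ C * K / V := (le_div_iff₀ hV0).2 h4
    linarith
  · refine le_trans ?_ (le_max_left _ _)
    have h3 := height hR1.1 hR1.2.2.1 hne1 hR2.1 hR2.2.2.1 hR2.2.1 hR2.2.2.2.1 heq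
    have h4 : (H * H) ^ g = 2 ^ ((48 * K + 8) * g) := by
      rw [hH, ← pow_add, ← pow_mul]; congr 1; ring
    rw [h4] at h3
    have h5 : b - a ≤ (48 * K + 8) * g := (Nat.pow_le_pow_iff_right (by norm_num)).1 h3
    have h6 : S.card - 1 ≤ 48 * K + 8 := Nat.le_of_mul_le_mul_right (hcnt.trans h5) hg1
    have h7 : S.card ≤ 50 * K + 1 := by omega
    exact_mod_cast h7

end Pool.Agent.Helper34.LD4
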